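import Pool.Agent.J4H28.YZ.Z4

/-! # Project YZ: sections of series with given denominators (Z3) -/

set_option autoImplicit false

namespace Pool.Agent.J4H28.YZ

open Pool.Agent.N103 Pool.Agent.W574.SM Pool.Agent.W574.MO Pool.Agent.J4H46.MS Pool.Agent.J4H46.MT
open Pool.Agent.J4H50.TF Pool.Agent.J4H50.YO Pool.Agent.J4H50.YZ

open scoped Polynomial PowerSeries
open PowerSeries (C coeff X)

section

variable {A : Type} [CommRing A] (L : Aˣ)

theorem sec_qq (k r a m : ℕ) (hr : r < k) (f : A⟦X⟧) :
    sec k r (qq L (k * a) (k * m) * f) = qq L a (k * m) * sec k r f := by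
  ext e
  rw [coeff_sec, coeff_qq_mul, coeff_qq_mul, coeff_sec]
  have h1 : k * a ≤ k * e + r ↔ a ≤ e := by
    constructor
    · intro h
      by_contra h2
      have h3 : k * (e + 1) ≤ k * a := Nat.mul_le_mul_left _ (by omega)
      rw [Nat.mul_add, mul_one] at h3
      omega
    · intro h
      have := Nat.mul_le_mul_left k h
      omega
  by_cases h : a ≤ e
  · rw [if_pos h, if_pos (h1.2 h)]
    have h2 : k * e + r - k * a = k * (e - a) + r := by
      have h3 := Nat.mul_le_mul_left k h
      rw [Nat.mul_sub]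
      omega
    rw [h2]
  · rw [if_neg h, if_neg (fun h' => h (h1.1 h'))]

theorem sb_qq (n D a N : ℕ) (hD : 1 ≤ D) (y : A⟦X⟧) :
    sb L n D (qq L a N * y) = qq L (D * a) (N + n * a) * sb L n D y := by
  ext e
  rw [coeff_sb, coeff_qq_mul, coeff_qq_mul]
  by_cases h : D ∣ e
  · obtain ⟨j, rfl⟩ := h
    rw [if_pos (dvd_mul_right _ _), Nat.mul_div_cancel_left _ (by omega)]
    by_cases h1 : a ≤ j
    · rw [if_pos h1, if_pos (Nat.mul_le_mul_left _ h1), ← Nat.mul_sub, coeff_sb,
        if_pos (dvd_mul_right _ _), Nat.mul_div_cancel_left _ (by omega), ← mul_assoc, ← mul_assoc,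
        ← Units.val_mul, ← Units.val_mul, ← pow_add, ← pow_add]
      congr 3
      obtain ⟨i, rfl⟩ := Nat.exists_eq_add_of_le h1
      rw [Nat.add_sub_cancel_left]
      ring
    · rw [if_neg h1, mul_zero, if_neg]
      intro h2
      exact h1 (Nat.le_of_mul_le_mul_left h2 (by omega))
  · rw [if_neg h]
    split_ifs with h1
    · rw [coeff_sb, if_neg, mul_zero]
      intro h2
      apply h
      have := dvd_add h2 (dvd_mul_right D a)
      rwa [Nat.sub_add_cancel h1] at this
    · rfl

end

theorem t_Z3 : S_Z3 := by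
  intro A _ L n D k r hn hD hk hr K K' hK x hx
  refine op_mem (LA := L) (LB := L) (K := K) (K' := K') k hk (fun f => sb L n D (sec k r f)) ?_ ?_
    (fun a _ => D * a) (fun a m => k * m + n * a) ?_ ?_ ?_ ?_ hx
  · intro f g
    have h1 : sec k r (f - g) = sec k r f - sec k r g := by
      ext m
      rw [map_sub, coeff_sec, coeff_sec, coeff_sec, map_sub]
    have h2 : ∀ u v : A⟦X⟧, sb L n D (u - v) = sb L n D u - sb L n D v := by
      intro u v
      ext m
      rw [map_sub, coeff_sb, coeff_sb, coeff_sb, map_sub]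
      split_ifs
      · ring
      · ring
    change sb L n D (sec k r (f - g)) = _
    rw [h1, h2]
  · rintro f ⟨N, hN⟩
    refine ⟨D * N, fun e he => ?_⟩
    rw [coeff_sb]
    split_ifs with h
    · obtain ⟨j, rfl⟩ := h
      rw [Nat.mul_div_cancel_left _ (by omega), coeff_sec, hN, mul_zero]
      have h1 : N ≤ j := Nat.le_of_mul_le_mul_left he (by omega)
      have h2 : 1 * j ≤ k * j := Nat.mul_le_mul_right _ hk
      omega
    · rfl
  · intro a m ha _
    exact Nat.mul_pos hD ha
  · intro a m _ hm
    have := Nat.mul_pos hk hm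
    omega
  · intro a m f _ _
    change sb L n D (sec k r (qq L (k * a) (k * m) * f)) = qq L (D * a) (k * m + n * a) * sb L n D (sec k r f)
    rw [sec_qq L k r a m hr, sb_qq L n D a _ hD]
  · intro a m ha hm h
    exact hK a m ha hm h

end Pool.Agent.J4H28.YZ
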