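import Pool.Agent.J4H50.YZ.Stm
import Pool.Agent.J4H46.MS.Univ

/-! # Project YZ: one point of the cone (Z4) -/

set_option autoImplicit false

namespace Pool.Agent.J4H28.YZ

open Pool.Agent.N103 Pool.Agent.W574.SM Pool.Agent.W574.MO Pool.Agent.J4H46.MS Pool.Agent.J4H46.MT
open Pool.Agent.J4H50.TF Pool.Agent.J4H50.YO Pool.Agent.J4H50.YZ

open scoped Polynomial PowerSeries
open PowerSeries (C coeff X)

section Ops

variable {A : Type} [CommRing A]

theorem coeff_sec (k r : ℕ) (x : A⟦X⟧) (m : ℕ) : coeff m (sec k r x) = coeff (k * m + r) x :=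
  PowerSeries.coeff_mk _ _

theorem sec_add (k r : ℕ) (x y : A⟦X⟧) : sec k r (x + y) = sec k r x + sec k r y := by
  ext m
  rw [map_add, coeff_sec, coeff_sec, coeff_sec, map_add]

theorem sec_C_mul (k r : ℕ) (c : A) (x : A⟦X⟧) : sec k r (C c * x) = C c * sec k r x := by
  ext m
  rw [coeff_sec, PowerSeries.coeff_C_mul, PowerSeries.coeff_C_mul, coeff_sec]

theorem sec_X_succ (k r : ℕ) (x : A⟦X⟧) : sec k (r + 1) (X * x) = sec k r x := by
  ext m
  rw [coeff_sec, coeff_sec, ← add_assoc, PowerSeries.coeff_succ_X_mul]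

theorem sec_X_zero (j : ℕ) (x : A⟦X⟧) : sec (j + 1) 0 (X * x) = X * sec (j + 1) j x := by
  ext m
  rw [coeff_sec]
  rcases m with _ | m
  · rw [mul_zero, add_zero, PowerSeries.coeff_zero_X_mul, PowerSeries.coeff_zero_X_mul]
  · rw [PowerSeries.coeff_succ_X_mul, coeff_sec, add_zero,
      show (j + 1) * (m + 1) = (j + 1) * m + j + 1 by ring, PowerSeries.coeff_succ_X_mul]

theorem sec_one_zero {k : ℕ} (hk : 1 ≤ k) : sec k 0 (1 : A⟦X⟧) = 1 := by
  ext m
  rw [coeff_sec, PowerSeries.coeff_one, PowerSeries.coeff_one, add_zero]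
  congr 1
  simp only [mul_eq_zero, eq_iff_iff]
  constructor
  · rintro (h | h)
    · omega
    · exact h
  · exact Or.inr

theorem sec_one_succ (k r : ℕ) : sec k (r + 1) (1 : A⟦X⟧) = 0 := by
  ext m
  rw [coeff_sec, PowerSeries.coeff_one, if_neg (by omega), map_zero]

variable (L : Aˣ)

theorem coeff_sb (n D : ℕ) (x : A⟦X⟧) (e : ℕ) : coeff e (sb L n D x) =
    if D ∣ e then ((L⁻¹ ^ (n * (e / D)) : Aˣ) : A) * coeff (e / D) x else 0 :=
  PowerSeries.coeff_mk _ _

theorem sb_add (n D : ℕ) (x y : A⟦X⟧) : sb L n D (x + y) = sb L n D x + sb L n D y := by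
  ext m
  rw [map_add, coeff_sb, coeff_sb, coeff_sb, map_add]
  split_ifs
  · ring
  · ring

theorem sb_C_mul (n D : ℕ) (c : A) (x : A⟦X⟧) : sb L n D (C c * x) = C c * sb L n D x := by
  ext m
  rw [coeff_sb, PowerSeries.coeff_C_mul, PowerSeries.coeff_C_mul, coeff_sb]
  split_ifs
  · ring
  · ring

theorem sb_zero (n D : ℕ) : sb L n D (0 : A⟦X⟧) = 0 := by
  ext m
  rw [coeff_sb, map_zero, map_zero]
  split_ifs
  · ring
  · rfl

theorem sb_one (n D : ℕ) (hD : 1 ≤ D) : sb L n D (1 : A⟦X⟧) = 1 := by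
  ext m
  rw [coeff_sb, PowerSeries.coeff_one, PowerSeries.coeff_one]
  by_cases hm : m = 0
  · subst hm
    simp
  · rw [if_neg hm]
    split_ifs with h1 h2
    · exfalso
      obtain ⟨j, rfl⟩ := h1
      rw [Nat.mul_div_cancel_left _ (by omega)] at h2
      subst h2
      simp at hm
    · ring
    · rfl

theorem sb_X (n D : ℕ) (hD : 1 ≤ D) (y : A⟦X⟧) : sb L n D (X * y) = qq L D n * sb L n D y := by
  ext e
  rw [coeff_sb, coeff_qq_mul]
  by_cases h : D ∣ e
  · obtain ⟨j, rfl⟩ := h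
    rw [if_pos (dvd_mul_right _ _), Nat.mul_div_cancel_left _ (by omega)]
    rcases j with _ | j
    · rw [PowerSeries.coeff_zero_X_mul, mul_zero, mul_zero, if_neg (by omega)]
    · rw [PowerSeries.coeff_succ_X_mul, if_pos (Nat.le_mul_of_pos_right _ (Nat.succ_pos _)),
        show D * (j + 1) - D = D * j by rw [Nat.mul_add, mul_one, Nat.add_sub_cancel], coeff_sb,
        if_pos (dvd_mul_right _ _), Nat.mul_div_cancel_left _ (by omega), ← mul_assoc,
        ← Units.val_mul, ← pow_add, show n + n * j = n * (j + 1) by ring]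
  · rw [if_neg h]
    split_ifs with h1
    · rw [coeff_sb, if_neg, mul_zero]
      intro h2
      apply h
      have := dvd_add h2 (dvd_refl D)
      rwa [Nat.sub_add_cancel h1] at this
    · rfl

theorem Th_add (n d k : ℕ) (x y : A⟦X⟧) : Th L n d k (x + y) = Th L n d k x + Th L n d k y := by
  rw [Th, Th, Th, ← Finset.sum_add_distrib]
  refine Finset.sum_congr rfl fun r _ => ?_
  rw [sec_add, sb_add, mul_add]

theorem Sc_add (n d k : ℕ) (x y : A⟦X⟧) : Sc L n d k (x + y) = Sc L n d k x + Sc L n d k y := by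
  rw [Sc, Sc, Sc, sec_add, sb_add]

theorem Th_C_mul (n d k : ℕ) (c : A) (x : A⟦X⟧) : Th L n d k (C c * x) = C c * Th L n d k x := by
  rw [Th, Th, Finset.mul_sum]
  refine Finset.sum_congr rfl fun r _ => ?_
  rw [sec_C_mul, sb_C_mul]
  ring

theorem Sc_C_mul (n d k : ℕ) (c : A) (x : A⟦X⟧) : Sc L n d k (C c * x) = C c * Sc L n d k x := by
  rw [Sc, Sc, sec_C_mul, sb_C_mul]

theorem Th_neg (n d k : ℕ) (x : A⟦X⟧) : Th L n d k (-x) = -Th L n d k x := by
  have h := Th_C_mul L n d k (-1) x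
  rw [map_neg, map_one, neg_one_mul, neg_one_mul] at h
  exact h

theorem Sc_neg (n d k : ℕ) (x : A⟦X⟧) : Sc L n d k (-x) = -Sc L n d k x := by
  have h := Sc_C_mul L n d k (-1) x
  rw [map_neg, map_one, neg_one_mul, neg_one_mul] at h
  exact h

theorem Th_sub (n d k : ℕ) (x y : A⟦X⟧) : Th L n d k (x - y) = Th L n d k x - Th L n d k y := by
  rw [sub_eq_add_neg, Th_add, Th_neg, ← sub_eq_add_neg]

theorem Sc_sub (n d k : ℕ) (x y : A⟦X⟧) : Sc L n d k (x - y) = Sc L n d k x - Sc L n d k y := by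
  rw [sub_eq_add_neg, Sc_add, Sc_neg, ← sub_eq_add_neg]

theorem Th_one (n d k : ℕ) (hk : 1 ≤ k) : Th L n d k (1 : A⟦X⟧) = 1 := by
  obtain ⟨j, rfl⟩ : ∃ j, k = j + 1 := ⟨k - 1, by omega⟩
  rw [Th, Finset.sum_range_succ', sec_one_zero (by omega), sb_one L n _ (by omega), pow_zero,
    one_mul]
  rw [Finset.sum_eq_zero, zero_add]
  intro r _
  rw [sec_one_succ, sb_zero, mul_zero]

theorem Sc_one (n d k : ℕ) (hk : 1 ≤ k) : Sc L n d k (1 : A⟦X⟧) = 1 := by
  rw [Sc, sec_one_zero hk, sb_one L n _ (by omega)]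

/-- the last section -/
noncomputable def Sp (n d k : ℕ) (x : A⟦X⟧) : A⟦X⟧ :=
  X ^ (k - 1) * sb L n (d + k) (sec k (k - 1) x)

theorem Th_X (n d k : ℕ) (hk : 1 ≤ k) (x : A⟦X⟧) : Th L n d k (X * x) =
    X * Th L n d k x - X * (1 - qq L d n) * Sp L n d k x := by
  obtain ⟨j, rfl⟩ : ∃ j, k = j + 1 := ⟨k - 1, by omega⟩
  rw [Sp, Th, Th, Nat.add_sub_cancel, Finset.sum_range_succ', sec_X_zero, sb_X L n _ (by omega),
    pow_zero, one_mul, Finset.sum_range_succ (n := j), mul_add, Finset.mul_sum]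
  have h1 : (∑ r ∈ Finset.range j, X ^ (r + 1) * sb L n (d + (j + 1)) (sec (j + 1) (r + 1) (X * x)))
      = ∑ r ∈ Finset.range j, X * (X ^ r * sb L n (d + (j + 1)) (sec (j + 1) r x)) := by
    refine Finset.sum_congr rfl fun r _ => ?_
    rw [sec_X_succ]
    ring
  rw [h1]
  have h2 : (qq L (d + (j + 1)) n : A⟦X⟧) = qq L d n * (X ^ j * X) := by
    rw [qq, qq, ← pow_succ, mul_assoc, ← pow_add]
  rw [h2]
  ring

theorem Sc_X (n d k : ℕ) (hk : 1 ≤ k) (x : A⟦X⟧) : Sc L n d k (X * x) =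
    X * qq L d n * Sp L n d k x := by
  obtain ⟨j, rfl⟩ : ∃ j, k = j + 1 := ⟨k - 1, by omega⟩
  rw [Sp, Sc, Nat.add_sub_cancel, sec_X_zero, sb_X L n _ (by omega)]
  have h2 : (qq L (d + (j + 1)) n : A⟦X⟧) = qq L d n * (X ^ j * X) := by
    rw [qq, qq, ← pow_succ, mul_assoc, ← pow_add]
  rw [h2]
  ring

theorem qf_eq (d n : ℕ) (hd : 1 ≤ d) : (1 - qq L d n : A⟦X⟧) * qf L d n = qq L d n := by
  rw [qf, if_neg (by omega)]
  linear_combination (qq L d n) * geo_mul L hd n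

end Ops

section Lin

variable {M A B : Type} [CommRing M] [CommRing A] [CommRing B] [Algebra M A] [Algebra M B]

theorem cm_sec (φ : A →ₗ[M] B) (k r : ℕ) (x : A⟦X⟧) : cm φ (sec k r x) = sec k r (cm φ x) := by
  ext m
  rw [coeff_cm, coeff_sec, coeff_sec, coeff_cm]

theorem cm_sb (φ : A →ₗ[M] B) (L : Mˣ) (n D : ℕ) (x : A⟦X⟧) :
    cm φ (sb (LE L) n D x) = sb (LE L) n D (cm φ x) := by
  ext m
  rw [coeff_cm, coeff_sb, coeff_sb, coeff_cm]
  split_ifs
  · rw [LE_inv, LE_inv, ← Algebra.smul_def, map_smul, Algebra.smul_def]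
  · exact map_zero _

theorem cm_Xpow (φ : A →ₗ[M] B) (r : ℕ) (x : A⟦X⟧) : cm φ (X ^ r * x) = X ^ r * cm φ x := by
  have h := cm_mul φ (X ^ r) x
  rwa [map_pow, map_pow, PowerSeries.map_X, PowerSeries.map_X] at h

theorem cm_Th (φ : A →ₗ[M] B) (L : Mˣ) (n d k : ℕ) (x : A⟦X⟧) :
    cm φ (Th (LE L) n d k x) = Th (LE L) n d k (cm φ x) := by
  rw [Th, Th]
  have h := map_sum (cmH φ) (fun r => X ^ r * sb (LE L) n (d + k) (sec k r x)) (Finset.range k)
  refine Eq.trans h (Finset.sum_congr rfl fun r _ => ?_)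
  change cm φ _ = _
  rw [cm_Xpow, cm_sb, cm_sec]

theorem cm_Sc (φ : A →ₗ[M] B) (L : Mˣ) (n d k : ℕ) (x : A⟦X⟧) :
    cm φ (Sc (LE L) n d k x) = Sc (LE L) n d k (cm φ x) := by
  rw [Sc, Sc, cm_sb, cm_sec]

theorem cm_alg (x : M⟦X⟧) : cm (Algebra.linearMap M A) x = PowerSeries.map (algebraMap M A) x := by
  ext m
  rw [coeff_cm, PowerSeries.coeff_map]
  rfl

theorem map_Th (L : Mˣ) (n d k : ℕ) (x : M⟦X⟧) :
    PowerSeries.map (algebraMap M A) (Th L n d k x) =
      Th (LE L) n d k (PowerSeries.map (algebraMap M A) x) := by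
  have h := cm_Th (Algebra.linearMap M A) L n d k x
  rwa [cm_alg, cm_alg, LE_self] at h

theorem map_Sc (L : Mˣ) (n d k : ℕ) (x : M⟦X⟧) :
    PowerSeries.map (algebraMap M A) (Sc L n d k x) =
      Sc (LE L) n d k (PowerSeries.map (algebraMap M A) x) := by
  have h := cm_Sc (Algebra.linearMap M A) L n d k x
  rwa [cm_alg, cm_alg, LE_self] at h

end Lin

theorem map_id' {M : Type} [CommRing M] (u : M⟦X⟧) :
    PowerSeries.map (algebraMap M M) u = u := by
  ext m
  rw [PowerSeries.coeff_map]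
  rfl

theorem t_Z4 : S_Z4 := by
  intro M E _ _ _ L S n d k hn hd hk R ρ Z hZ δ hδ lam hlam R' hR'
  have hLL : (C (L : M) : M⟦X⟧) * qq L 1 1 = X := by
    rw [qq, pow_one, pow_one, ← mul_assoc, ← map_mul, Units.mul_inv, map_one, one_mul]
  have hP : (1 - qq L 1 1 : M⟦X⟧) * qf L 1 1 = qq L 1 1 := qf_eq L 1 1 le_rfl
  have hQ : (1 - qq L d n : M⟦X⟧) * qf L d n = qq L d n := qf_eq L d n hd
  have htot1 : S.tot 1 = (L : M) - 1 := by
    rw [← S.pc_one]
    exact S.tot_pc 1 le_rfl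
  -- the total class of a series over `M`
  have htm : ∀ u : M⟦X⟧, cm S.tot (PowerSeries.map (algebraMap M E) u) = C ((L : M) - 1) * u := by
    intro u
    rw [cm_map, map_id', htot1]
  have hZt : cm S.tot Z = cm S.tot R + C ((L : M) - 1) * ρ := by
    rw [hZ, cm_add, htm]
  have hstar : (1 - X) * δ + cm S.tot R + C (L : M) * ((1 - qq L 1 1) * ρ) = 1 := by
    have h1 := gtr_eq (cm S.tot Z)
    rw [hδ]
    have h2 : (C ((L : M) - 1) : M⟦X⟧) = C (L : M) - 1 := by rw [map_sub, map_one]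
    rw [hZt, h2] at h1
    rw [hZt, h2]
    linear_combination h1 - ρ * hLL
  -- `Th` and `Sc` of `σ`
  have hqq : ∀ u : M⟦X⟧, qq L 1 1 * u = C ((L⁻¹ : Mˣ) : M) * (X * u) := by
    intro u
    rw [qq, pow_one, pow_one]
    ring
  have hThσ : Th L n d k ((1 - qq L 1 1) * ρ) = Th L n d k ρ -
      qq L 1 1 * (Th L n d k ρ - (1 - qq L d n) * Sp L n d k ρ) := by
    rw [sub_mul, one_mul, hqq, Th_sub, Th_C_mul, Th_X L n d k hk, hqq]
    ring
  have hScσ : Sc L n d k ((1 - qq L 1 1) * ρ) = Sc L n d k ρ -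
      qq L 1 1 * (qq L d n * Sp L n d k ρ) := by
    rw [sub_mul, one_mul, hqq, Sc_sub, Sc_C_mul, Sc_X L n d k hk, hqq]
    ring
  refine ⟨C ((L : M) - 1) * (qf L d n * Th L n d k ρ + Sc L n d k ρ * (1 + qf L 1 1)) +
    lam * qf L 1 1, ?_, ?_, ?_⟩
  · -- the decomposition
    have e1 : gtr (cm S.tot Z) = δ + ρ := by rw [hδ]; ring
    have e2 : cm (S.mu (S.pc d)) (Th (LE L) n d k Z) = cm (S.mu (S.pc d)) (Th (LE L) n d k R) +
        PowerSeries.map (algebraMap M E) (C ((L : M) - 1) * Th L n d k ρ) := by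
      rw [hZ, Th_add, cm_add, ← map_Th, cm_map, S.mu_one, S.tot_pc d hd, map_mul,
        PowerSeries.map_C]
    have e3 : cm (S.cz d k) (Sc (LE L) n d k Z) = cm (S.cz d k) (Sc (LE L) n d k R) +
        (PowerSeries.map (algebraMap M E) (C ((L : M) - 1) * Sc L n d k ρ) -
          C (S.pc (d + k)) * PowerSeries.map (algebraMap M E) (Sc L n d k ρ)) := by
      rw [hZ, Sc_add, cm_add, ← map_Sc, cm_map, S.cz_one d k hd hk, map_mul,
        PowerSeries.map_C, map_sub C]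
      ring
    have e4 : cm (S.zr (S.pc k)) (Sc (LE L) n d k Z) = lam + C ((L : M) - 1) * Sc L n d k ρ := by
      rw [hZ, Sc_add, cm_add, ← map_Sc, cm_map, map_id', S.zr_one, S.tot_pc k hk, hlam]
    have e5 : (qf (LE L) d n : E⟦X⟧) = PowerSeries.map (algebraMap M E) (qf L d n) :=
      (map_qf (algebraMap M E) rfl d n).symm
    rw [ptM, e1, e2, e3, e4, hR', e5, Sc_add]
    simp only [map_add, map_mul, map_sub, map_one]
    ring
  · -- the denominators
    rw [hThσ, hScσ]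
    linear_combination (C ((L : M) - 1) * Sc L n d k ρ + lam) * hP -
      C ((L : M) - 1) * qq L 1 1 * Sp L n d k ρ * hQ
  · -- the total class
    have f1 : cm S.tot (C (S.pc (d + k)) * PowerSeries.map (algebraMap M E) (Sc L n d k δ - 1)) =
        C ((L : M) - 1) * (Sc L n d k δ - 1) := by
      rw [cm_C_mul, map_id', S.tot_pc (d + k) (by omega)]
    have e5 : (qf (LE L) d n : E⟦X⟧) = PowerSeries.map (algebraMap M E) (qf L d n) :=
      (map_qf (algebraMap M E) rfl d n).symm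
    have f2 : cm S.tot (qf (LE L) d n * cm (S.mu (S.pc d)) (Th (LE L) n d k R)) =
        qf L d n * (C ((L : M) - 1) * Th L n d k (cm S.tot R)) := by
      rw [e5, cm_mul, map_id']
      congr 1
      have h1 := cm_Th S.tot L n d k R
      rw [LE_self] at h1
      rw [← h1]
      ext m
      rw [coeff_cm, coeff_cm, PowerSeries.coeff_C_mul, coeff_cm, S.tot_mu, S.tot_pc d hd]
    have f3 : cm S.tot (cm (S.cz d k) (Sc (LE L) n d k R)) =
        C ((L : M) - 1) * Sc L n d k (cm S.tot R) - lam := by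
      have h1 := cm_Sc S.tot L n d k R
      rw [LE_self] at h1
      rw [← h1, hlam]
      ext m
      rw [map_sub, coeff_cm, coeff_cm, PowerSeries.coeff_C_mul, coeff_cm, coeff_cm]
      linear_combination S.tot_cz d k (coeff m (Sc (LE L) n d k R)) hd hk
    rw [hR', cm_add, cm_add, f1, f2, f3]
    -- the bracket
    have g1 : cm S.tot R = 1 - (1 - X) * δ - C (L : M) * ((1 - qq L 1 1) * ρ) := by
      linear_combination hstar
    have g2 : Th L n d k (cm S.tot R) = 1 - (Th L n d k δ - (X * Th L n d k δ -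
        X * (1 - qq L d n) * Sp L n d k δ)) - C (L : M) * Th L n d k ((1 - qq L 1 1) * ρ) := by
      rw [g1, Th_sub, Th_sub, Th_C_mul, Th_one L n d k hk, sub_mul, one_mul, Th_sub,
        Th_X L n d k hk]
    have g3 : Sc L n d k (cm S.tot R) = 1 - (Sc L n d k δ - X * qq L d n * Sp L n d k δ) -
        C (L : M) * Sc L n d k ((1 - qq L 1 1) * ρ) := by
      rw [g1, Sc_sub, Sc_sub, Sc_C_mul, Sc_one L n d k hk, sub_mul, one_mul, Sc_sub,
        Sc_X L n d k hk]
    rw [g2, g3, hThσ, hScσ]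
    linear_combination (C (L : M) * (C ((L : M) - 1) * Sc L n d k ρ + lam)) * hP -
      C (L : M) * C ((L : M) - 1) * qq L 1 1 * Sp L n d k ρ * hQ + lam * hLL -
      C ((L : M) - 1) * X * Sp L n d k δ * hQ

end Pool.Agent.J4H28.YZ
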